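import Pool.Agent.Sok.D.Cls0

/-! Check of the classes. -/

set_option linter.defProp false

namespace Pool.Agent.Sok

def cls_10 : ClsOk clsB 460 506 := chkCls_ok (n := 46) (by decide +kernel)
def cls_11 : ClsOk clsB 506 552 := chkCls_ok (n := 46) (by decide +kernel)
def cls_12 : ClsOk clsB 552 598 := chkCls_ok (n := 46) (by decide +kernel)
def cls_13 : ClsOk clsB 598 644 := chkCls_ok (n := 46) (by decide +kernel)
def cls_14 : ClsOk clsB 644 690 := chkCls_ok (n := 46) (by decide +kernel)
def cls_15 : ClsOk clsB 690 736 := chkCls_ok (n := 46) (by decide +kernel)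
def cls_16 : ClsOk clsB 736 782 := chkCls_ok (n := 46) (by decide +kernel)
def cls_17 : ClsOk clsB 782 828 := chkCls_ok (n := 46) (by decide +kernel)
def cls_18 : ClsOk clsB 828 874 := chkCls_ok (n := 46) (by decide +kernel)
def cls_19 : ClsOk clsB 874 920 := chkCls_ok (n := 46) (by decide +kernel)

end Pool.Agent.Sok
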