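import Pool.Agent.Sok.D.Cls1
import Pool.Agent.Sok.D.Cls2

/-! All classes are valid. -/

namespace Pool.Agent.Sok

theorem clsOk : ClsOk clsB 0 920 :=
  (cls_0.app (cls_1.app (cls_2.app (cls_3.app (cls_4.app (cls_5.app (cls_6.app (cls_7.app (cls_8.app (cls_9.app (cls_10.app (cls_11.app (cls_12.app (cls_13.app (cls_14.app (cls_15.app (cls_16.app (cls_17.app (cls_18.app cls_19)))))))))))))))))))

end Pool.Agent.Sok
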