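import Pool.Agent.Sok.D.Cls
import Pool.Agent.Sok.D.B00a
import Pool.Agent.Sok.D.B01a
import Pool.Agent.Sok.D.B02a
import Pool.Agent.Sok.D.B03a
import Pool.Agent.Sok.D.B10a
import Pool.Agent.Sok.D.B11a
import Pool.Agent.Sok.D.B12a
import Pool.Agent.Sok.D.B13a
import Pool.Agent.Sok.D.B20a
import Pool.Agent.Sok.D.B21a
import Pool.Agent.Sok.D.B22a
import Pool.Agent.Sok.D.B23a
import Pool.Agent.Sok.D.B30a
import Pool.Agent.Sok.D.B30b
import Pool.Agent.Sok.D.B31a
import Pool.Agent.Sok.D.B32a
import Pool.Agent.Sok.D.B33a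
import Pool.Agent.Sok.D.B40a
import Pool.Agent.Sok.D.B41a
import Pool.Agent.Sok.D.B42a
import Pool.Agent.Sok.D.B43a

/-! All certificates of one family. -/

namespace Pool.Agent.Sok

noncomputable def LB : List (ℕ × List ℕ) :=
  (List.append B00a.L
  (List.append B01a.L
  (List.append B02a.L
  (List.append B03a.L
  (List.append B10a.L
  (List.append B11a.L
  (List.append B12a.L
  (List.append B13a.L
  (List.append B20a.L
  (List.append B21a.L
  (List.append B22a.L
  (List.append B23a.L
  (List.append B30a.L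
  (List.append B30b.L
  (List.append B31a.L
  (List.append B32a.L
  (List.append B33a.L
  (List.append B40a.L
  (List.append B41a.L
  (List.append B42a.L
  B43a.L))))))))))))))))))))

theorem LB_ok : Cov LB :=
  ((B00a.ok clsOk).app
  ((B01a.ok clsOk).app
  ((B02a.ok clsOk).app
  ((B03a.ok clsOk).app
  ((B10a.ok clsOk).app
  ((B11a.ok clsOk).app
  ((B12a.ok clsOk).app
  ((B13a.ok clsOk).app
  ((B20a.ok clsOk).app
  ((B21a.ok clsOk).app
  ((B22a.ok clsOk).app
  ((B23a.ok clsOk).app
  ((B30a.ok clsOk).app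
  ((B30b.ok clsOk).app
  ((B31a.ok clsOk).app
  ((B32a.ok clsOk).app
  ((B33a.ok clsOk).app
  ((B40a.ok clsOk).app
  ((B41a.ok clsOk).app
  ((B42a.ok clsOk).app
  (B43a.ok clsOk)))))))))))))))))))))

theorem case10 : CaseFrom 10 2252 :=
  caseFrom LB_ok (f := fun _ => false) (fun _ h => absurd h Bool.false_ne_true)
    (l := [2458, 2867, 3277, 3686, 4096]) (by decide +kernel)

end Pool.Agent.Sok
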