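import Pool.Agent.Sok.D.Cls
import Pool.Agent.Sok.D.A00a
import Pool.Agent.Sok.D.A01a
import Pool.Agent.Sok.D.A02a
import Pool.Agent.Sok.D.A03a
import Pool.Agent.Sok.D.A10a
import Pool.Agent.Sok.D.A11a
import Pool.Agent.Sok.D.A12a
import Pool.Agent.Sok.D.A13a
import Pool.Agent.Sok.D.A20a
import Pool.Agent.Sok.D.A21a
import Pool.Agent.Sok.D.A21b
import Pool.Agent.Sok.D.A22a
import Pool.Agent.Sok.D.A23a
import Pool.Agent.Sok.D.A30a
import Pool.Agent.Sok.D.A30b
import Pool.Agent.Sok.D.A31a
import Pool.Agent.Sok.D.A32a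
import Pool.Agent.Sok.D.A33a
import Pool.Agent.Sok.D.A40a
import Pool.Agent.Sok.D.A41a
import Pool.Agent.Sok.D.A42a
import Pool.Agent.Sok.D.A43a
import Pool.Agent.Sok.D.A50a
import Pool.Agent.Sok.D.A51a
import Pool.Agent.Sok.D.A52a
import Pool.Agent.Sok.D.A53a
import Pool.Agent.Sok.D.A60a
import Pool.Agent.Sok.D.A61a
import Pool.Agent.Sok.D.A62a
import Pool.Agent.Sok.D.A63a
import Pool.Agent.Sok.D.A70a
import Pool.Agent.Sok.D.A71a
import Pool.Agent.Sok.D.A72a
import Pool.Agent.Sok.D.A73a

/-! All certificates of one family. -/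

namespace Pool.Agent.Sok

noncomputable def LA : List (ℕ × List ℕ) :=
  (List.append A00a.L
  (List.append A01a.L
  (List.append A02a.L
  (List.append A03a.L
  (List.append A10a.L
  (List.append A11a.L
  (List.append A12a.L
  (List.append A13a.L
  (List.append A20a.L
  (List.append A21a.L
  (List.append A21b.L
  (List.append A22a.L
  (List.append A23a.L
  (List.append A30a.L
  (List.append A30b.L
  (List.append A31a.L
  (List.append A32a.L
  (List.append A33a.L
  (List.append A40a.L
  (List.append A41a.L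
  (List.append A42a.L
  (List.append A43a.L
  (List.append A50a.L
  (List.append A51a.L
  (List.append A52a.L
  (List.append A53a.L
  (List.append A60a.L
  (List.append A61a.L
  (List.append A62a.L
  (List.append A63a.L
  (List.append A70a.L
  (List.append A71a.L
  (List.append A72a.L
  A73a.L)))))))))))))))))))))))))))))))))

theorem LA_ok : Cov LA :=
  ((A00a.ok clsOk).app
  ((A01a.ok clsOk).app
  ((A02a.ok clsOk).app
  ((A03a.ok clsOk).app
  ((A10a.ok clsOk).app
  ((A11a.ok clsOk).app
  ((A12a.ok clsOk).app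
  ((A13a.ok clsOk).app
  ((A20a.ok clsOk).app
  ((A21a.ok clsOk).app
  ((A21b.ok clsOk).app
  ((A22a.ok clsOk).app
  ((A23a.ok clsOk).app
  ((A30a.ok clsOk).app
  ((A30b.ok clsOk).app
  ((A31a.ok clsOk).app
  ((A32a.ok clsOk).app
  ((A33a.ok clsOk).app
  ((A40a.ok clsOk).app
  ((A41a.ok clsOk).app
  ((A42a.ok clsOk).app
  ((A43a.ok clsOk).app
  ((A50a.ok clsOk).app
  ((A51a.ok clsOk).app
  ((A52a.ok clsOk).app
  ((A53a.ok clsOk).app
  ((A60a.ok clsOk).app
  ((A61a.ok clsOk).app
  ((A62a.ok clsOk).app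
  ((A63a.ok clsOk).app
  ((A70a.ok clsOk).app
  ((A71a.ok clsOk).app
  ((A72a.ok clsOk).app
  (A73a.ok clsOk))))))))))))))))))))))))))))))))))

theorem case1 : CaseFrom 1 0 :=
  caseFrom LA_ok (f := fun _ => false) (fun _ h => absurd h Bool.false_ne_true)
    (l := [307, 512, 819, 1229, 1843, 2662, 3359, 4096]) (by decide +kernel)

theorem case2 : CaseFrom 2 0 :=
  caseFrom LA_ok (f := fun _ => false) (fun _ h => absurd h Bool.false_ne_true)
    (l := [307, 512, 819, 1229, 1843, 2662, 3359, 4096]) (by decide +kernel)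

theorem case3 : CaseFrom 3 0 :=
  caseFrom LA_ok (f := fun _ => false) (fun _ h => absurd h Bool.false_ne_true)
    (l := [307, 512, 819, 1229, 1843, 2662, 3359, 4096]) (by decide +kernel)

theorem case4 : CaseFrom 4 0 :=
  caseFrom LA_ok (f := fun _ => false) (fun _ h => absurd h Bool.false_ne_true)
    (l := [307, 512, 819, 1229, 1843, 2662, 3359, 4096]) (by decide +kernel)

theorem case5 : CaseFrom 5 0 :=
  caseFrom LA_ok (f := fun _ => false) (fun _ h => absurd h Bool.false_ne_true)
    (l := [307, 512, 819, 1229, 1843, 2662, 3359, 4096]) (by decide +kernel)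

theorem case6 : CaseFrom 6 0 :=
  caseFrom LA_ok (f := fun _ => false) (fun _ h => absurd h Bool.false_ne_true)
    (l := [307, 512, 819, 1229, 1843, 2662, 3359, 4096]) (by decide +kernel)

theorem case7 : CaseFrom 7 0 :=
  caseFrom LA_ok (f := fun _ => false) (fun _ h => absurd h Bool.false_ne_true)
    (l := [307, 512, 819, 1229, 1843, 2662, 3359, 4096]) (by decide +kernel)

theorem case8 : CaseFrom 8 0 :=
  caseFrom LA_ok (f := fun _ => false) (fun _ h => absurd h Bool.false_ne_true)
    (l := [307, 512, 819, 1229, 1843, 2662, 3359, 4096]) (by decide +kernel)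

theorem case9 : CaseFrom 9 0 :=
  caseFrom LA_ok (f := fun _ => false) (fun _ h => absurd h Bool.false_ne_true)
    (l := [307, 512, 819, 1229, 1843, 2662, 3359, 4096]) (by decide +kernel)

end Pool.Agent.Sok
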