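import Pool.Agent.Sok.D.Cls0

/-! Check of the classes. -/

set_option linter.defProp false

namespace Pool.Agent.Sok

def cls_0 : ClsOk clsB 0 46 := chkCls_ok (n := 46) (by decide +kernel)
def cls_1 : ClsOk clsB 46 92 := chkCls_ok (n := 46) (by decide +kernel)
def cls_2 : ClsOk clsB 92 138 := chkCls_ok (n := 46) (by decide +kernel)
def cls_3 : ClsOk clsB 138 184 := chkCls_ok (n := 46) (by decide +kernel)
def cls_4 : ClsOk clsB 184 230 := chkCls_ok (n := 46) (by decide +kernel)
def cls_5 : ClsOk clsB 230 276 := chkCls_ok (n := 46) (by decide +kernel)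
def cls_6 : ClsOk clsB 276 322 := chkCls_ok (n := 46) (by decide +kernel)
def cls_7 : ClsOk clsB 322 368 := chkCls_ok (n := 46) (by decide +kernel)
def cls_8 : ClsOk clsB 368 414 := chkCls_ok (n := 46) (by decide +kernel)
def cls_9 : ClsOk clsB 414 460 := chkCls_ok (n := 46) (by decide +kernel)

end Pool.Agent.Sok
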